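import Pool.Agent.J4H45.GT.Stm
import Pool.Agent.N631.SX.Amp

/-! # Project GT (helper45), piece AMG: amplification of the advantage -/

set_option autoImplicit false

namespace Pool.Agent.J4H18.GT

open Pool.Agent.W959 Pool.Agent.W959.Ent Pool.Agent.N631.SX Pool.Agent.J4H45.GT

section

variable {κ : Type} {Γ : κ → Type}

/-- the tree for the copy `i` -/
def mapG {r : ℕ} (i : Fin r) : GTree Γ → GTree (fun c : Fin r × κ => Γ c.2)
  | GTree.answer o => GTree.answer o
  | GTree.probe σ nx => GTree.probe (i, σ) (fun v => mapG i (nx v))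

theorem mapG_out {r : ℕ} (i : Fin r) (b : ∀ c : Fin r × κ, Γ c.2) (T : GTree Γ) :
    (mapG i T).out b = T.out (fun σ => b (i, σ)) := by
  induction T with
  | answer o => rfl
  | probe σ nx ih =>
    simp only [mapG, GTree.out]
    exact ih _

theorem mapG_cost {r : ℕ} (i : Fin r) (ℓ : κ → ℕ) (b : ∀ c : Fin r × κ, Γ c.2) (T : GTree Γ) :
    (mapG i T).cost (fun c => ℓ c.2) b = T.cost ℓ (fun σ => b (i, σ)) := by
  induction T with
  | answer o => rfl
  | probe σ nx ih =>
    simp only [mapG, GTree.cost]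
    rw [ih]

/-- one tree after another -/
def bindG : GTree Γ → (Bool → GTree Γ) → GTree Γ
  | GTree.answer o, k => k o
  | GTree.probe σ nx, k => GTree.probe σ (fun b => bindG (nx b) k)

theorem bindG_out (b : ∀ σ, Γ σ) (T : GTree Γ) (k : Bool → GTree Γ) :
    (bindG T k).out b = (k (T.out b)).out b := by
  induction T with
  | answer o => rfl
  | probe σ nx ih =>
    simp only [bindG, GTree.out]
    exact ih _

theorem bindG_cost (ℓ : κ → ℕ) (b : ∀ σ, Γ σ) (T : GTree Γ) (k : Bool → GTree Γ) :
    (bindG T k).cost ℓ b = T.cost ℓ b + (k (T.out b)).cost ℓ b := by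
  induction T with
  | answer o => simp [bindG, GTree.cost, GTree.out]
  | probe σ nx ih =>
    simp only [bindG, GTree.cost, GTree.out]
    rw [ih]
    omega

/-- majority of the answers of trees -/
def majG (r : ℕ) : List (GTree Γ) → ℕ → GTree Γ
  | [], m => GTree.answer (decide (r < 2 * m))
  | T :: l, m => bindG T (fun o => majG r l (m + if o = true then 1 else 0))

theorem majG_out (r : ℕ) (b : ∀ σ, Γ σ) (l : List (GTree Γ)) (m : ℕ) :
    (majG r l m).out b =
      decide (r < 2 * (m + (l.map fun T => if T.out b = true then 1 else 0).sum)) := by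
  induction l generalizing m with
  | nil => simp [majG, GTree.out]
  | cons T l ih =>
    simp only [majG]
    rw [bindG_out, ih]
    simp only [List.map_cons, List.sum_cons]
    congr 2
    ring

theorem majG_cost (r : ℕ) (ℓ : κ → ℕ) (b : ∀ σ, Γ σ) (l : List (GTree Γ)) (m : ℕ) :
    (majG r l m).cost ℓ b = (l.map fun T => T.cost ℓ b).sum := by
  induction l generalizing m with
  | nil => simp [majG, GTree.cost]
  | cons T l ih =>
    simp only [majG]
    rw [bindG_cost, ih]
    simp

theorem cut_cost (ℓ : κ → ℕ) (b : ∀ σ, Γ σ) (T : GTree Γ) : ∀ h : ℕ, (T.cut ℓ h).cost ℓ b ≤ h := by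
  induction T with
  | answer o => intro h; simp [GTree.cut, GTree.cost]
  | probe σ nx ih =>
    intro h
    simp only [GTree.cut]
    split_ifs with h1
    · simp only [GTree.cost]
      have := ih (b σ) (h - ℓ σ)
      omega
    · simp [GTree.cost]

theorem cut_out (ℓ : κ → ℕ) (b : ∀ σ, Γ σ) (T : GTree Γ) : ∀ h : ℕ, T.cost ℓ b ≤ h → (T.cut ℓ h).out b = T.out b := by
  induction T with
  | answer o => intro h _; rfl
  | probe σ nx ih =>
    intro h hc
    simp only [GTree.cost] at hc
    simp only [GTree.cut]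
    rw [if_pos (by omega)]
    simp only [GTree.out]
    exact ih (b σ) (h - ℓ σ) (by omega)

variable [∀ σ, AddCommGroup (Γ σ)]

/-- independent copies with a majority vote -/
noncomputable def ampG {n : ℕ} (ℓ : κ → ℕ) (h r : ℕ) (D : Fin r → GroupDS n Γ) :
    GroupDS n (fun c : Fin r × κ => Γ c.2) where
  Q σ := (D σ.1).Q σ.2
  a σ := (D σ.1).a σ.2
  f σ := (D σ.1).f σ.2
  g σ := (D σ.1).g σ.2
  query z := majG r (List.ofFn fun i => mapG i (((D i).query z).cut ℓ h)) 0

theorem ampG_cell {n : ℕ} (ℓ : κ → ℕ) (h r : ℕ) (D : Fin r → GroupDS n Γ) (A B : Fin n → ℕ) (i : Fin r) (σ : κ) :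
    (ampG ℓ h r D).cell A B (i, σ) = (D i).cell A B σ := rfl

theorem ampG_out {n : ℕ} (ℓ : κ → ℕ) (h r : ℕ) (D : Fin r → GroupDS n Γ) (A B : Fin n → ℕ) (z : ℕ) :
    ((ampG ℓ h r D).query z).out ((ampG ℓ h r D).cell A B) =
      decide (r < 2 * ∑ i, if (((D i).query z).cut ℓ h).out ((D i).cell A B) = true then 1 else 0) := by
  have h1 : (ampG ℓ h r D).query z = majG r (List.ofFn fun i => mapG i (((D i).query z).cut ℓ h)) 0 := rfl
  rw [h1, majG_out, List.map_ofFn, List.sum_ofFn, zero_add]
  congr 3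
  refine Finset.sum_congr rfl fun i _ => ?_
  simp only [Function.comp_apply, mapG_out, ampG_cell]

theorem ampG_cost {n : ℕ} (ℓ : κ → ℕ) (h r : ℕ) (D : Fin r → GroupDS n Γ) (A B : Fin n → ℕ) (z : ℕ) :
    ((ampG ℓ h r D).query z).cost (fun c => ℓ c.2) ((ampG ℓ h r D).cell A B) ≤ r * h := by
  have h1 : (ampG ℓ h r D).query z = majG r (List.ofFn fun i => mapG i (((D i).query z).cut ℓ h)) 0 := rfl
  rw [h1, majG_cost, List.map_ofFn, List.sum_ofFn]
  calc _ ≤ ∑ _i : Fin r, h := by
        refine Finset.sum_le_sum fun i _ => ?_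
        simp only [Function.comp_apply, mapG_cost]
        exact cut_cost _ _ _ _
    _ = r * h := by simp

theorem ampG_space [Fintype κ] {n S : ℕ} (ℓ : κ → ℕ) (h r : ℕ) (D : Fin r → GroupDS n Γ)
    (hs : ∀ i, (D i).space ℓ ≤ S) : (ampG ℓ h r D).space (fun c => ℓ c.2) ≤ r * S := by
  classical
  unfold GroupDS.space
  rw [Finset.sum_filter, Fintype.sum_prod_type]
  calc _ ≤ ∑ _i : Fin r, S := by
        refine Finset.sum_le_sum fun i _ => ?_
        refine le_trans (le_of_eq ?_) (hs i)
        unfold GroupDS.space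
        rw [Finset.sum_filter]
        refine Finset.sum_congr rfl fun σ _ => ?_
        rfl
    _ = r * S := by simp

theorem ampG_solves {n : ℕ} {Ω : Type} [Fintype Ω] (p : Ω → ℝ) (D : Ω → GroupDS n Γ) (ℓ : κ → ℕ)
    {h r : ℕ} {δ : ℝ} (hδ : 0 < δ) (hr : 25 / δ ^ 2 ≤ (r : ℝ)) (hD : GroupSolves p D ℓ h δ) :
    GroupSolves (fun ω : Fin r → Ω => ∏ l, p (ω l)) (fun ω => ampG ℓ h r fun i => D (ω i)) (fun c => ℓ c.2)
      (r * h) (49 / 100) := by
  classical
  obtain ⟨hp, hp1, hcor⟩ := hD
  refine ⟨fun ω => Finset.prod_nonneg fun l _ => hp _, total p hp1 r, ?_⟩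
  intro A B hA hB z
  have h1 := hcor A B hA hB z
  let bad : Ω → Prop := fun ω => ¬ ((((D ω).query z).out ((D ω).cell A B) = true ↔
      ∃ i j, A i + B j = z) ∧ ((D ω).query z).cost ℓ ((D ω).cell A B) ≤ h)
  have hbad : ∑ ω, p ω * ind (bad ω) ≤ 1 / 2 - δ := by
    rw [Finset.sum_filter] at h1
    have h2 : ∑ ω, p ω * ind (bad ω) + (1 / 2 + δ) ≤ 1 := by
      refine (add_le_add_right h1 _).trans ?_
      rw [← Finset.sum_add_distrib, ← hp1]
      refine Finset.sum_le_sum fun ω _ => ?_
      by_cases h : bad ω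
      · rw [ind_true h, if_neg h]
        simp
      · rw [ind_false h, if_pos (not_not.1 h)]
        simp
    linarith
  have h2 := cheb p hp hp1 bad hδ hbad hr
  have h3 := total p hp1 r
  rw [Finset.sum_filter]
  have h4 : ∀ ω : Fin r → Ω, (∏ l, p (ω l)) - (∏ l, p (ω l)) *
      ind ((r : ℝ) ≤ 2 * ∑ i, ind (bad (ω i))) ≤
      if (((ampG ℓ h r fun i => D (ω i)).query z).out
        ((ampG ℓ h r fun i => D (ω i)).cell A B) = true ↔ ∃ i j, A i + B j = z) ∧
        ((ampG ℓ h r fun i => D (ω i)).query z).cost (fun c => ℓ c.2) ((ampG ℓ h r fun i => D (ω i)).cell A B) ≤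
          r * h then (∏ l, p (ω l)) else 0 := by
    intro ω
    have hP : 0 ≤ ∏ l, p (ω l) := Finset.prod_nonneg fun l _ => hp _
    by_cases h' : (r : ℝ) ≤ 2 * ∑ i, ind (bad (ω i))
    · rw [ind_true h', mul_one, sub_self]
      split_ifs
      · exact hP
      · exact le_rfl
    · rw [ind_false h', mul_zero, sub_zero]
      rw [if_pos]
      refine ⟨?_, ampG_cost _ _ _ _ _ _ _⟩
      rw [ampG_out, decide_eq_true_iff]
      have h' := not_le.1 h'
      let o : Fin r → Prop := fun i => (((D (ω i)).query z).cut ℓ h).out ((D (ω i)).cell A B) = true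
      have hcast : ((∑ i, if (((D (ω i)).query z).cut ℓ h).out ((D (ω i)).cell A B) = true then 1
          else 0 : ℕ) : ℝ) = ∑ i, ind (o i) := by
        push_cast
        refine Finset.sum_congr rfl fun i _ => ?_
        rw [ind_eq_ite]
      have hgood : ∀ i, ¬ bad (ω i) → (o i ↔ ∃ i j, A i + B j = z) := by
        intro i hi
        have := not_not.1 hi
        simp only [o]
        rw [cut_out _ _ _ _ this.2]
        exact this.1
      constructor
      · intro hlt
        by_contra hno
        have h5 : ∑ i, ind (o i) ≤ ∑ i, ind (bad (ω i)) := by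
          refine Finset.sum_le_sum fun i _ => ?_
          apply ind_mono
          intro hi
          exact Classical.byContradiction fun hb => hno ((hgood i hb).1 hi)
        have h6 : (r : ℝ) < 2 * ∑ i, ind (o i) := by
          rw [← hcast]
          exact_mod_cast hlt
        linarith
      · intro hyes
        have h5 : (r : ℝ) ≤ ∑ i, ind (bad (ω i)) + ∑ i, ind (o i) := by
          rw [← Finset.sum_add_distrib]
          calc (r : ℝ) = ∑ _i : Fin r, (1 : ℝ) := by simp
            _ ≤ _ := by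
              refine Finset.sum_le_sum fun i _ => ?_
              by_cases hb : bad (ω i)
              · rw [ind_true hb]
                have := ind_nonneg (o i)
                linarith
              · rw [ind_false hb, ind_true ((hgood i hb).2 hyes)]
                norm_num
        have h6 : (r : ℝ) < 2 * ∑ i, ind (o i) := by linarith
        rw [← hcast] at h6
        exact_mod_cast h6
  have h5 := Finset.sum_le_sum fun ω (_ : ω ∈ (Finset.univ : Finset (Fin r → Ω))) => h4 ω
  rw [Finset.sum_sub_distrib, h3] at h5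
  linarith

end

theorem t_AMG : S_AMG := by
  intro N h r S κ _ Γ _ ℓ Ω _ p D δ hδ hr hs hD
  exact ⟨fun ω => ampG ℓ h r fun i => D (ω i), fun ω => ampG_space ℓ h r _ fun i => hs _,
    ampG_solves p D ℓ hδ hr hD⟩

end Pool.Agent.J4H18.GT
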