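import Pool.Agent.J4H45.GT.Stm

/-! # Project GT (helper45), piece DEC: every answer is constant, one-sided or the answer for a pair -/

set_option autoImplicit false

namespace Pool.Agent.J4H18.GT

open Pool.Agent.N631.LX Pool.Agent.N631.SX Pool.Agent.J4H45.GT

theorem t_DEC : S_DEC := by
  classical
  intro k v ρ hρ hρv hv z
  by_cases h : ∃ (i j : Fin k) (off : ℕ), off < WW ρ v ∧
      z = WW ρ v * ((i : ℕ) + k * (j : ℕ)) + off
  · obtain ⟨i, j, off, hoff, rfl⟩ := h
    by_cases h1 : off < ρ * ρ + v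
    · refine Or.inr (Or.inr ⟨fun T => ∃ x b, x < ρ ∧ OB2 ρ T j b ∧ x * ρ + b = off, fun S T => ?_⟩)
      rw [ans2_loc hρ hv S T i j hoff]
      constructor
      · rintro ⟨a, b, ⟨x, hx, ha⟩ | ⟨e, he, ha⟩, hb, h2⟩
        · exact ⟨x, b, hx, hb, by rw [← ha]; exact h2⟩
        · omega
      · rintro ⟨x, b, hx, hb, h2⟩
        exact ⟨x * ρ, b, Or.inl ⟨x, hx, rfl⟩, hb, h2⟩
    · by_cases h2 : off = ρ * ρ + 2 * v - 1
      · refine Or.inl ⟨i, j, fun S T => ?_⟩
        rw [h2]
        exact ans2_mid hρ hv S T i j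
      · by_cases h3 : off < ρ * ρ + 3 * v - 1
        · refine Or.inr (Or.inl ⟨fun _ => True, fun S T => ?_⟩)
          have : ans2 ρ S T (WW ρ v * ((i : ℕ) + k * (j : ℕ)) + off) := by
            rw [ans2_loc hρ hv S T i j hoff]
            by_cases h4 : off < ρ * ρ + 2 * v - 1
            · obtain ⟨y, hy⟩ : ∃ y, y = off - (2 * v - 1) := ⟨_, rfl⟩
              have hy1 : y < ρ * ρ := by omega
              have hy2 := Nat.div_add_mod y ρ
              rw [mul_comm] at hy2
              exact ⟨y / ρ * ρ, 2 * v - 1 + y % ρ, Or.inl ⟨y / ρ, Nat.div_lt_of_lt_mul hy1, rfl⟩,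
                Or.inr ⟨y % ρ, Nat.mod_lt _ (by omega), Or.inl rfl⟩, by omega⟩
            · obtain ⟨y, hy⟩ : ∃ y, y = off - (ρ * ρ + 2 * v) := ⟨_, rfl⟩
              have hy1 : y < ρ * ρ := by omega
              have hy2 := Nat.div_add_mod y ρ
              rw [mul_comm] at hy2
              exact ⟨y / ρ * ρ, ρ * ρ + 2 * v + y % ρ,
                Or.inl ⟨y / ρ, Nat.div_lt_of_lt_mul hy1, rfl⟩,
                Or.inr ⟨y % ρ, Nat.mod_lt _ (by omega), Or.inr rfl⟩, by omega⟩
          exact iff_of_true this trivial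
        · refine Or.inr (Or.inl ⟨fun S => ∃ a b, OA2 ρ S i a ∧ PB ρ v b ∧ a + b = off, fun S T => ?_⟩)
          rw [ans2_loc hρ hv S T i j hoff]
          constructor
          · rintro ⟨a, b, ha, ⟨e', he', hb⟩ | hb, h5⟩
            · have := OA2_lt ha
              have := e'.2
              omega
            · exact ⟨a, b, ha, hb, h5⟩
          · rintro ⟨a, b, ha, hb, h5⟩
            exact ⟨a, b, ha, Or.inr hb, h5⟩
  · refine Or.inr (Or.inl ⟨fun _ => False, fun S T => ?_⟩)
    refine iff_of_false ?_ id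
    rintro ⟨i, j, a, b, ha, hb, h2⟩
    exact h ⟨i, j, a + b, sum_lt hρ hv ha hb, h2.symm⟩

end Pool.Agent.J4H18.GT
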