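import Pool.Agent.J4H45.GT.StmE
import Pool.Agent.J4H18.GT.Amg

/-! # Project GE (helper45), piece EAM: amplification of the advantage for emptiness queries -/

set_option autoImplicit false

namespace Pool.Agent.J4H18.GT

open Pool.Agent.W959 Pool.Agent.W959.Ent Pool.Agent.N631.SX Pool.Agent.J4H45.GT

section

variable {κ : Type} {Γ : κ → Type}

variable [∀ σ, AddCommGroup (Γ σ)]

/-- independent copies with a majority vote -/
noncomputable def ampE {k u : ℕ} (ℓ : κ → ℕ) (h r : ℕ) (D : Fin r → EGroupDS k u Γ) :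
    EGroupDS k u (fun c : Fin r × κ => Γ c.2) where
  P σ := (D σ.1).P σ.2
  a σ := (D σ.1).a σ.2
  f σ := (D σ.1).f σ.2
  g σ := (D σ.1).g σ.2
  query i₀ j₀ := majG r (List.ofFn fun i => mapG i (((D i).query i₀ j₀).cut ℓ h)) 0

theorem ampE_cell {k u : ℕ} (ℓ : κ → ℕ) (h r : ℕ) (D : Fin r → EGroupDS k u Γ) (A B : Fin k → Finset (Fin u)) (i : Fin r) (σ : κ) :
    (ampE ℓ h r D).cell A B (i, σ) = (D i).cell A B σ := rfl

theorem ampE_out {k u : ℕ} (ℓ : κ → ℕ) (h r : ℕ) (D : Fin r → EGroupDS k u Γ) (A B : Fin k → Finset (Fin u)) (i₀ j₀ : Fin k) :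
    ((ampE ℓ h r D).query i₀ j₀).out ((ampE ℓ h r D).cell A B) =
      decide (r < 2 * ∑ i, if (((D i).query i₀ j₀).cut ℓ h).out ((D i).cell A B) = true then 1 else 0) := by
  have h1 : (ampE ℓ h r D).query i₀ j₀ = majG r (List.ofFn fun i => mapG i (((D i).query i₀ j₀).cut ℓ h)) 0 := rfl
  rw [h1, majG_out, List.map_ofFn, List.sum_ofFn, zero_add]
  congr 3
  refine Finset.sum_congr rfl fun i _ => ?_
  simp only [Function.comp_apply, mapG_out, ampE_cell]

theorem ampE_cost {k u : ℕ} (ℓ : κ → ℕ) (h r : ℕ) (D : Fin r → EGroupDS k u Γ) (A B : Fin k → Finset (Fin u)) (i₀ j₀ : Fin k) :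
    ((ampE ℓ h r D).query i₀ j₀).cost (fun c => ℓ c.2) ((ampE ℓ h r D).cell A B) ≤ r * h := by
  have h1 : (ampE ℓ h r D).query i₀ j₀ = majG r (List.ofFn fun i => mapG i (((D i).query i₀ j₀).cut ℓ h)) 0 := rfl
  rw [h1, majG_cost, List.map_ofFn, List.sum_ofFn]
  calc _ ≤ ∑ _i : Fin r, h := by
        refine Finset.sum_le_sum fun i _ => ?_
        simp only [Function.comp_apply, mapG_cost]
        exact cut_cost _ _ _ _
    _ = r * h := by simp

theorem ampE_space [Fintype κ] {k u S : ℕ} (ℓ : κ → ℕ) (h r : ℕ) (D : Fin r → EGroupDS k u Γ)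
    (hs : ∀ i, (D i).space ℓ ≤ S) : (ampE ℓ h r D).space (fun c => ℓ c.2) ≤ r * S := by
  classical
  unfold EGroupDS.space
  rw [Finset.sum_filter, Fintype.sum_prod_type]
  calc _ ≤ ∑ _i : Fin r, S := by
        refine Finset.sum_le_sum fun i _ => ?_
        refine le_trans (le_of_eq ?_) (hs i)
        unfold EGroupDS.space
        rw [Finset.sum_filter]
        refine Finset.sum_congr rfl fun σ _ => ?_
        rfl
    _ = r * S := by simp

theorem ampE_solves {N k u : ℕ} {Ω : Type} [Fintype Ω] (p : Ω → ℝ) (D : Ω → EGroupDS k u Γ) (ℓ : κ → ℕ)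
    {h r : ℕ} {δ : ℝ} (hδ : 0 < δ) (hr : 25 / δ ^ 2 ≤ (r : ℝ)) (hD : EGroupSolves N p D ℓ h δ) :
    EGroupSolves N (fun ω : Fin r → Ω => ∏ l, p (ω l)) (fun ω => ampE ℓ h r fun i => D (ω i)) (fun c => ℓ c.2)
      (r * h) (49 / 100) := by
  classical
  obtain ⟨hp, hp1, hcor⟩ := hD
  refine ⟨fun ω => Finset.prod_nonneg fun l _ => hp _, total p hp1 r, ?_⟩
  intro A B hA i₀ j₀
  have h1 := hcor A B hA i₀ j₀
  let bad : Ω → Prop := fun ω => ¬ ((((D ω).query i₀ j₀).out ((D ω).cell A B) = true ↔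
      (A i₀ ∩ B j₀).Nonempty) ∧ ((D ω).query i₀ j₀).cost ℓ ((D ω).cell A B) ≤ h)
  have hbad : ∑ ω, p ω * ind (bad ω) ≤ 1 / 2 - δ := by
    rw [Finset.sum_filter] at h1
    have h2 : ∑ ω, p ω * ind (bad ω) + (1 / 2 + δ) ≤ 1 := by
      refine (add_le_add_right h1 _).trans ?_
      rw [← Finset.sum_add_distrib, ← hp1]
      refine Finset.sum_le_sum fun ω _ => ?_
      by_cases h : bad ω
      · rw [ind_true h, if_neg h]
        simp
      · rw [ind_false h, if_pos (not_not.1 h)]
        simp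
    linarith
  have h2 := cheb p hp hp1 bad hδ hbad hr
  have h3 := total p hp1 r
  rw [Finset.sum_filter]
  have h4 : ∀ ω : Fin r → Ω, (∏ l, p (ω l)) - (∏ l, p (ω l)) *
      ind ((r : ℝ) ≤ 2 * ∑ i, ind (bad (ω i))) ≤
      if (((ampE ℓ h r fun i => D (ω i)).query i₀ j₀).out
        ((ampE ℓ h r fun i => D (ω i)).cell A B) = true ↔ (A i₀ ∩ B j₀).Nonempty) ∧
        ((ampE ℓ h r fun i => D (ω i)).query i₀ j₀).cost (fun c => ℓ c.2) ((ampE ℓ h r fun i => D (ω i)).cell A B) ≤
          r * h then (∏ l, p (ω l)) else 0 := by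
    intro ω
    have hP : 0 ≤ ∏ l, p (ω l) := Finset.prod_nonneg fun l _ => hp _
    by_cases h' : (r : ℝ) ≤ 2 * ∑ i, ind (bad (ω i))
    · rw [ind_true h', mul_one, sub_self]
      split_ifs
      · exact hP
      · exact le_rfl
    · rw [ind_false h', mul_zero, sub_zero]
      rw [if_pos]
      refine ⟨?_, ampE_cost _ _ _ _ _ _ _ _⟩
      rw [ampE_out, decide_eq_true_iff]
      have h' := not_le.1 h'
      let o : Fin r → Prop := fun i => (((D (ω i)).query i₀ j₀).cut ℓ h).out ((D (ω i)).cell A B) = true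
      have hcast : ((∑ i, if (((D (ω i)).query i₀ j₀).cut ℓ h).out ((D (ω i)).cell A B) = true then 1
          else 0 : ℕ) : ℝ) = ∑ i, ind (o i) := by
        push_cast
        refine Finset.sum_congr rfl fun i _ => ?_
        rw [ind_eq_ite]
      have hgood : ∀ i, ¬ bad (ω i) → (o i ↔ (A i₀ ∩ B j₀).Nonempty) := by
        intro i hi
        have := not_not.1 hi
        simp only [o]
        rw [cut_out _ _ _ _ this.2]
        exact this.1
      constructor
      · intro hlt
        by_contra hno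
        have h5 : ∑ i, ind (o i) ≤ ∑ i, ind (bad (ω i)) := by
          refine Finset.sum_le_sum fun i _ => ?_
          apply ind_mono
          intro hi
          exact Classical.byContradiction fun hb => hno ((hgood i hb).1 hi)
        have h6 : (r : ℝ) < 2 * ∑ i, ind (o i) := by
          rw [← hcast]
          exact_mod_cast hlt
        linarith
      · intro hyes
        have h5 : (r : ℝ) ≤ ∑ i, ind (bad (ω i)) + ∑ i, ind (o i) := by
          rw [← Finset.sum_add_distrib]
          calc (r : ℝ) = ∑ _i : Fin r, (1 : ℝ) := by simp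
            _ ≤ _ := by
              refine Finset.sum_le_sum fun i _ => ?_
              by_cases hb : bad (ω i)
              · rw [ind_true hb]
                have := ind_nonneg (o i)
                linarith
              · rw [ind_false hb, ind_true ((hgood i hb).2 hyes)]
                norm_num
        have h6 : (r : ℝ) < 2 * ∑ i, ind (o i) := by linarith
        rw [← hcast] at h6
        exact_mod_cast h6
  have h5 := Finset.sum_le_sum fun ω (_ : ω ∈ (Finset.univ : Finset (Fin r → Ω))) => h4 ω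
  rw [Finset.sum_sub_distrib, h3] at h5
  linarith

end

theorem t_EAM : S_EAM := by
  intro N k u h r S κ _ Γ _ ℓ Ω _ p D δ hδ hr hs hD
  exact ⟨fun ω => ampE ℓ h r fun i => D (ω i), fun ω => ampE_space ℓ h r _ fun i => hs _,
    ampE_solves p D ℓ hδ hr hD⟩

end Pool.Agent.J4H18.GT
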