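import Pool.Agent.J4H45.GT.Stm

/-!
# (SER) the error of one data structure, summed over all pairs (project GT of helper45)
-/

set_option autoImplicit false

namespace Pool.Agent.J4H18.GT

open Pool.Agent.J4H45.GT Pool.Agent.N631.SX Pool.Agent.N631.LX
open Pool.Agent.W959 Pool.Agent.W959.Ent Pool.Agent.TH457.EntD

/-- a cut tree has no path of weight greater than `h` -/
theorem cut_within {κ : Type} {Γ : κ → Type} (ℓ : κ → ℕ) (T : GTree Γ) :
    ∀ h : ℕ, (T.cut ℓ h).Within ℓ h := by
  induction T with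
  | answer o =>
      intro h
      exact trivial
  | probe σ next ih =>
      intro h
      unfold GTree.cut
      by_cases hh : ℓ σ ≤ h
      · rw [if_pos hh]
        exact ⟨hh, fun v => ih v (h - ℓ σ)⟩
      · rw [if_neg hh]
        exact trivial

open Classical in
/-- every answer is a sum of answers for pairs and of one-sided functions -/
theorem dec_sum (hD : S_DEC) (k v ρ : ℕ) (hρ : 1 ≤ ρ) (hv : v ≤ ρ * ρ) (hv2 : 2 ≤ v) (z : ℕ) :
    ∃ (c : Fin k → Fin k → Prop) (P P' : (Fin k → Fin v → Bool) → Prop),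
      ∀ (S T : Fin k → Fin v → Bool) (G : Type) [AddCommGroup G] (a : G),
        (if ans2 ρ S T z then a else 0) =
          (∑ i, ∑ j, if meets S T i j then (if c i j then a else 0) else 0) +
            (if P S then a else 0) + (if P' T then a else 0) := by
  rcases hD k v ρ hρ hv hv2 z with ⟨i0, j0, h⟩ | ⟨P, h⟩ | ⟨P, h⟩
  · refine ⟨fun i j => i = i0 ∧ j = j0, fun _ => False, fun _ => False, ?_⟩
    intro S T G _ a
    beta_reduce
    rw [if_neg (fun h : False => h), add_zero, add_zero]
    rw [Finset.sum_eq_single i0, Finset.sum_eq_single j0]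
    · simp only [and_self, if_true]
      by_cases hm : meets S T i0 j0
      · rw [if_pos hm, if_pos ((h S T).2 hm)]
      · rw [if_neg hm, if_neg (fun hh => hm ((h S T).1 hh))]
    · intro j _ hj
      by_cases hm : meets S T i0 j
      · rw [if_pos hm, if_neg (fun hh => hj hh.2)]
      · rw [if_neg hm]
    · intro hh
      exact absurd (Finset.mem_univ _) hh
    · intro i _ hi
      refine Finset.sum_eq_zero fun j _ => ?_
      by_cases hm : meets S T i j
      · rw [if_pos hm, if_neg (fun hh => hi hh.1)]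
      · rw [if_neg hm]
    · intro hh
      exact absurd (Finset.mem_univ _) hh
  · refine ⟨fun _ _ => False, P, fun _ => False, ?_⟩
    intro S T G _ a
    simp only [if_false, ite_self, Finset.sum_const_zero, zero_add, add_zero]
    by_cases hp : P S
    · rw [if_pos hp, if_pos ((h S T).2 hp)]
    · rw [if_neg hp, if_neg (fun hh => hp ((h S T).1 hh))]
  · refine ⟨fun _ _ => False, fun _ => False, P, ?_⟩
    intro S T G _ a
    simp only [if_false, ite_self, Finset.sum_const_zero, zero_add]
    by_cases hp : P T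
    · rw [if_pos hp, if_pos ((h S T).2 hp)]
    · rw [if_neg hp, if_neg (fun hh => hp ((h S T).1 hh))]

open Classical in
/-- the sum over the pairs of sets which meet -/
theorem meets_sumG {k q n : ℕ} (i0 j0 : Fin k) {G : Type} [AddCommGroup G]
    (C : Fin k → Fin k → G) (x y : AA n k q) :
    (∑ i, ∑ j, if meets (setS i0 x) (setT j0 y) i j then C i j else 0) =
      (∑ i, ∑ j, if zz i0 j0 x.2 y.2 i j = true then C i j else 0) +
        if conj x.1 y.1 = zero n then 0 else C i0 j0 := by
  have h1 : ∀ i j, (if meets (setS i0 x) (setT j0 y) i j then C i j else 0) =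
      (if zz i0 j0 x.2 y.2 i j = true then C i j else 0) +
        (if i = i0 then (if j = j0 then (if conj x.1 y.1 = zero n then 0 else C i0 j0) else 0)
          else 0) := by
    intro i j
    by_cases h : i = i0 ∧ j = j0
    · obtain ⟨rfl, rfl⟩ := h
      have hz := zz_self i j x.2 y.2
      rw [if_pos rfl, if_pos rfl]
      by_cases hc : conj x.1 y.1 = zero n
      · have : ¬ meets (setS i x) (setT j y) i j := by
          rw [meets_iff, hz]
          simp [hc]
        rw [if_neg this, if_pos hc, hz]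
        simp
      · have : meets (setS i x) (setT j y) i j := by
          rw [meets_iff]
          exact Or.inl ⟨rfl, rfl, hc⟩
        rw [if_pos this, if_neg hc, hz]
        simp
    · have h2 : (if i = i0 then (if j = j0 then (if conj x.1 y.1 = zero n then 0 else C i0 j0)
          else 0) else 0) = (0 : G) := by
        by_cases hi : i = i0
        · rw [if_pos hi, if_neg (fun hj => h ⟨hi, hj⟩)]
        · rw [if_neg hi]
      rw [h2, add_zero]
      have h3 : meets (setS i0 x) (setT j0 y) i j ↔ zz i0 j0 x.2 y.2 i j = true := by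
        rw [meets_iff]
        constructor
        · rintro (⟨ha, hb, _⟩ | hz)
          · exact absurd ⟨ha, hb⟩ h
          · exact hz
        · exact Or.inr
      by_cases hm : zz i0 j0 x.2 y.2 i j = true
      · rw [if_pos hm, if_pos (h3.2 hm)]
      · rw [if_neg hm, if_neg (fun hh => hm (h3.1 hh))]
  rw [Finset.sum_congr rfl fun i _ => Finset.sum_congr rfl fun j _ => h1 i j]
  simp only [Finset.sum_add_distrib]
  congr 1
  simp

theorem t_SER : S_PAIR → S_BAD → S_DEC → S_SER := by
  intro hP hB hD N k q n m ρ h S κ _ Γ _ _ ℓ D h1 hm hn hq hρ hρv hv hN hΓ hS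
  classical
  have hh1 : (1 : ℝ) ≤ h := by exact_mod_cast h1
  have hm' : (2 : ℝ) ≤ m := by
    have : 2 ≤ m := by omega
    exact_mod_cast this
  have hinv0 : 0 ≤ 1 / (m : ℝ) := by positivity
  have hr1 : 0 ≤ 1 - 1 / (m : ℝ) := by
    have : 1 / (m : ℝ) ≤ 1 := by
      rw [div_le_one (by linarith)]
      linarith
    linarith
  choose cz P P' hz using fun z => dec_sum hD k (vv n q) ρ hρ hρv hv z
  let C' : ∀ σ, Fin k → Fin k → Γ σ := fun σ i j =>
    ∑ z ∈ D.Q σ, if cz z i j then D.a σ z else 0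
  let F : Finset κ := Finset.univ.filter fun σ => (D.Q σ).Nonempty
  have hF : ∀ σ, σ ∉ F → ∀ i j, C' σ i j = 0 := by
    intro σ hσ i j
    have h2 : ¬ (D.Q σ).Nonempty := fun h => hσ (Finset.mem_filter.2 ⟨Finset.mem_univ _, h⟩)
    rw [Finset.not_nonempty_iff_eq_empty] at h2
    simp [C', h2]
  let G : Finset (Fin k × Fin k) := Finset.univ.filter fun p =>
    ¬ Good C' (128 * ((h : ℝ) + 12)) (1 / 20000) p.1 p.2
  have hG := hB k κ Γ ℓ C' F (128 * ((h : ℝ) + 12)) (1 / 20000) G hΓ hF (by positivity)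
    (by norm_num) (by norm_num) (fun p hp => (Finset.mem_filter.1 hp).2)
  have hsp : ((∑ σ ∈ F, ℓ σ : ℕ) : ℝ) ≤ S := by
    have : (∑ σ ∈ F, ℓ σ : ℕ) ≤ S := by
      refine le_trans (le_of_eq ?_) hS
      unfold GroupDS.space
      congr
    exact_mod_cast this
  have hG' : (G.card : ℝ) ≤ 1 + 10 ^ 18 * (h : ℝ) ^ 2 * S := by
    refine hG.trans ?_
    have hK : (128 * ((h : ℝ) + 12) + 1) ^ 2 ≤ (1665 * (h : ℝ)) ^ 2 := by
      apply pow_le_pow_left₀ (by positivity)
      nlinarith
    have e1 : 384 * (128 * ((h : ℝ) + 12) + 1) ^ 2 * ((∑ σ ∈ F, ℓ σ : ℕ) : ℝ) /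
        (1 / 20000 : ℝ) ^ 2 = (384 * 400000000) * (((128 * ((h : ℝ) + 12) + 1) ^ 2) *
          ((∑ σ ∈ F, ℓ σ : ℕ) : ℝ)) := by
      ring
    rw [e1]
    have h3 : ((128 * ((h : ℝ) + 12) + 1) ^ 2) * ((∑ σ ∈ F, ℓ σ : ℕ) : ℝ) ≤
        (1665 * (h : ℝ)) ^ 2 * S :=
      mul_le_mul hK hsp (by positivity) (by positivity)
    have h4 : (384 * 400000000 : ℝ) * ((1665 * (h : ℝ)) ^ 2 * S) ≤ 10 ^ 18 * (h : ℝ) ^ 2 * S := by
      have h5 : (0 : ℝ) ≤ (h : ℝ) ^ 2 * S := by positivity
      nlinarith
    have h5 : (384 * 400000000 : ℝ) * (((128 * ((h : ℝ) + 12) + 1) ^ 2) *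
        ((∑ σ ∈ F, ℓ σ : ℕ) : ℝ)) ≤ (384 * 400000000 : ℝ) * ((1665 * (h : ℝ)) ^ 2 * S) :=
      mul_le_mul_of_nonneg_left h3 (by norm_num)
    linarith
  have herr : ∀ p : Fin k × Fin k, p ∉ G → (1 / 80 : ℝ) ≤
      EE (q := q) (1 / (m : ℝ)) (fun x y => ind (¬ (((D.query (pos2 n q k ρ p)).cut ℓ h).out
        (D.cell (arrA2 N ρ p.1 x) (arrB2 N ρ p.2 y)) = true ↔
          ¬ conj x.1 y.1 = zero n))) := by
    intro p hp
    let f : ∀ σ, AA n k q → Γ σ := fun σ x =>
      D.f σ (arrA2 N ρ p.1 x) + ∑ z ∈ D.Q σ, if P z (setS p.1 x) then D.a σ z else 0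
    let g : ∀ σ, AA n k q → Γ σ := fun σ y =>
      D.g σ (arrB2 N ρ p.2 y) + ∑ z ∈ D.Q σ, if P' z (setT p.2 y) then D.a σ z else 0
    have hcell : ∀ x y : AA n k q, D.cell (arrA2 N ρ p.1 x) (arrB2 N ρ p.2 y) =
        fun σ => vval C' f g p.1 p.2 x y σ := by
      intro x y
      funext σ
      have e1 : D.cell (arrA2 N ρ p.1 x) (arrB2 N ρ p.2 y) σ =
          (∑ z ∈ D.Q σ, if ans2 ρ (setS p.1 x) (setT p.2 y) z then D.a σ z else 0) +
            D.f σ (arrA2 N ρ p.1 x) + D.g σ (arrB2 N ρ p.2 y) := by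
        unfold GroupDS.cell
        rw [Finset.sum_filter]
        congr 2
        refine Finset.sum_congr rfl fun z _ => ?_
        have h2 := arr2_iff hρ hN p.1 p.2 x y z
        by_cases h3 : ans2 ρ (setS p.1 x) (setT p.2 y) z
        · rw [if_pos h3, if_pos (h2.2 h3)]
        · rw [if_neg h3, if_neg (fun hh => h3 (h2.1 hh))]
      have e2 : (∑ z ∈ D.Q σ, if ans2 ρ (setS p.1 x) (setT p.2 y) z then D.a σ z else 0) =
          (∑ i, ∑ j, if meets (setS p.1 x) (setT p.2 y) i j then C' σ i j else 0) +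
            (∑ z ∈ D.Q σ, if P z (setS p.1 x) then D.a σ z else 0) +
            (∑ z ∈ D.Q σ, if P' z (setT p.2 y) then D.a σ z else 0) := by
        rw [Finset.sum_congr rfl fun z _ => hz z (setS p.1 x) (setT p.2 y) (Γ σ) (D.a σ z)]
        simp only [Finset.sum_add_distrib]
        congr 2
        rw [Finset.sum_comm]
        refine Finset.sum_congr rfl fun i _ => ?_
        rw [Finset.sum_comm]
        refine Finset.sum_congr rfl fun j _ => ?_
        by_cases hmt : meets (setS p.1 x) (setT p.2 y) i j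
        · simp only [if_pos hmt]
          rfl
        · simp only [if_neg hmt]
          exact Finset.sum_const_zero
      rw [e1, e2, meets_sumG]
      unfold vval zval
      simp only [f, g]
      abel
    have h2 := hP k q n m h κ Γ ℓ C' f g p.1 p.2 ((D.query (pos2 n q k ρ p)).cut ℓ h) h1 hm hn hq
      hΓ (cut_within ℓ _ h) (by
        by_contra hg
        exact hp (Finset.mem_filter.2 ⟨Finset.mem_univ _, hg⟩))
    simp only [hcell]
    exact h2
  calc ((k : ℝ) ^ 2 - (1 + 10 ^ 18 * (h : ℝ) ^ 2 * S)) * (1 / 80)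
      ≤ ((k : ℝ) ^ 2 - G.card) * (1 / 80) := by
        apply mul_le_mul_of_nonneg_right _ (by norm_num)
        linarith
    _ = ∑ p : Fin k × Fin k, if p ∈ G then (0 : ℝ) else 1 / 80 := by
        rw [Finset.sum_ite]
        have h1 : Finset.univ.filter (fun p => ¬ p ∈ G) = Gᶜ := by
          ext p
          simp
        rw [h1, Finset.sum_const_zero, zero_add, Finset.sum_const, Finset.card_compl,
          nsmul_eq_mul, Fintype.card_prod, Fintype.card_fin]
        rw [Nat.cast_sub (by
          have := Finset.card_le_univ G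
          simpa using this)]
        push_cast
        ring
    _ ≤ _ := by
        refine Finset.sum_le_sum fun p _ => ?_
        by_cases hp : p ∈ G
        · rw [if_pos hp]
          exact EE_nonneg hinv0 hr1 fun x y => ind_nonneg _
        · rw [if_neg hp]
          exact herr p hp

end Pool.Agent.J4H18.GT
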